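import Pool.Agent.H77.KG.Targets

/-!
# Row MNC of kgr_modules: minimal groups are connected
-/

set_option autoImplicit false

open Set Pool.Agent.H77.BC Pool.Agent.H77.BD Pool.Agent.H77.KG

namespace Pool.Agent.H1.KGR

theorem pf_MNC (hADT : T_ADT) : T_MNC := by
  intro M U G V _ _ _ _ _ _ _ _ T W hW
  obtain ⟨hD, hI, hinf, hmin⟩ := hW
  obtain ⟨A0, hle, hC, hR, -, hσ⟩ := (hADT U V).comp W hD
  have hA : RKA U := Pool.Agent.H77.BCP.a_RKA U
  have hiff : ∀ t ∈ T, ∀ v, v ∈ A0 ↔ t • v ∈ A0 := by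
    intro t ht
    refine hσ (DistribMulAction.toAddEquiv V t) ?_ ?_
    · exact DFn_act (DFn_const t) DFn_id
    · intro v
      constructor
      · exact hI t ht v
      · intro h
        have h1 := hI t⁻¹ (T.inv_mem ht) _ h
        have h2 : t⁻¹ • (DistribMulAction.toAddEquiv V t) v = v := inv_smul_smul t v
        rwa [h2] at h1
  by_cases h : A0 = W
  · rw [← h]
    exact hC
  · have hfin := hmin A0 hle hC.1 (fun t ht v hv => (hiff t ht v).1 hv) h
    have h1 : U.R (A0 : Set V) = 0 := (hA.fin hC.1 ⟨0, A0.zero_mem⟩).2 hfin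
    rw [hR] at h1
    exact absurd ((hA.fin hD ⟨0, W.zero_mem⟩).1 h1) hinf

end Pool.Agent.H1.KGR
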