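import Pool.Agent.H77.KG.Targets

/-!
# Row QMD of kgr_modules: quotient of a module by an invariant subgroup
-/

set_option autoImplicit false

open Set Pool.Agent.H77.BC Pool.Agent.H77.BD Pool.Agent.H77.KG

namespace Pool.Agent.H1.KGR

/-! ### algebra -/

section alg

variable {G V : Type} [Group G] [AddCommGroup V] [DistribMulAction G V]

/-- the action of `G` on the quotient -/
private def ph (W : AddSubgroup V) (hW : Iv (⊤ : Subgroup G) W) : G →* AddMonoid.End (V ⧸ W) where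
  toFun g := QuotientAddGroup.map W W (DistribSMul.toAddMonoidHom V g)
    (fun v hv => hW g trivial v hv)
  map_one' := by
    refine AddMonoidHom.ext fun x => ?_
    obtain ⟨v, rfl⟩ := QuotientAddGroup.mk_surjective x
    change (((1 : G) • v : V) : V ⧸ W) = (v : V ⧸ W)
    rw [one_smul]
  map_mul' := by
    intro g h
    refine AddMonoidHom.ext fun x => ?_
    obtain ⟨v, rfl⟩ := QuotientAddGroup.mk_surjective x
    change ((((g * h) • v : V)) : V ⧸ W) = ((g • (h • v) : V) : V ⧸ W)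
    rw [mul_smul]

private theorem ph_apply (W : AddSubgroup V) (hW : Iv (⊤ : Subgroup G) W) (g : G) (v : V) :
    ph W hW g (v : V ⧸ W) = ((g • v : V) : V ⧸ W) := rfl

private theorem mem_ker (W : AddSubgroup V) (hW : Iv (⊤ : Subgroup G) W) (g : G) :
    g ∈ (ph W hW).ker ↔ ∀ v : V, g • v - v ∈ W := by
  rw [MonoidHom.mem_ker]
  constructor
  · intro h v
    have h1 : ph W hW g (v : V ⧸ W) = (v : V ⧸ W) := by
      rw [h]
      rfl
    rw [ph_apply] at h1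
    have h2 := QuotientAddGroup.eq.1 h1
    have h3 := W.neg_mem h2
    have h4 : -(-(g • v) + v) = g • v - v := by abel
    rwa [h4] at h3
  · intro h
    refine AddMonoidHom.ext fun x => ?_
    obtain ⟨v, rfl⟩ := QuotientAddGroup.mk_surjective x
    change ((g • v : V) : V ⧸ W) = (v : V ⧸ W)
    rw [QuotientAddGroup.eq]
    have h3 := W.neg_mem (h v)
    have h4 : -(g • v - v) = -(g • v) + v := by abel
    rwa [h4] at h3

/-- the homomorphism of the quotient -/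
private def kl (W : AddSubgroup V) (hW : Iv (⊤ : Subgroup G) W) :
    G ⧸ (ph W hW).ker →* AddMonoid.End (V ⧸ W) :=
  QuotientGroup.lift (ph W hW).ker (ph W hW) le_rfl

private theorem kl_mk (W : AddSubgroup V) (hW : Iv (⊤ : Subgroup G) W) (g : G) :
    kl W hW (g : G ⧸ (ph W hW).ker) = ph W hW g := rfl

private theorem kl_inj (W : AddSubgroup V) (hW : Iv (⊤ : Subgroup G) W) :
    Function.Injective (kl W hW) := by
  intro a b h
  obtain ⟨g, rfl⟩ := QuotientGroup.mk_surjective a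
  obtain ⟨g', rfl⟩ := QuotientGroup.mk_surjective b
  rw [kl_mk, kl_mk] at h
  rw [QuotientGroup.eq, MonoidHom.mem_ker, map_mul, ← h, ← map_mul, inv_mul_cancel, map_one]

/-- the action of the quotient on the quotient -/
@[reducible] private def actQ (W : AddSubgroup V) (hW : Iv (⊤ : Subgroup G) W) :
    DistribMulAction (G ⧸ (ph W hW).ker) (V ⧸ W) where
  smul a x := kl W hW a x
  one_smul x := by
    change kl W hW 1 x = x
    rw [map_one]
    rfl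
  mul_smul a b x := by
    change kl W hW (a * b) x = kl W hW a (kl W hW b x)
    rw [map_mul]
    rfl
  smul_zero a := map_zero (kl W hW a)
  smul_add a x y := map_add (kl W hW a) x y

private theorem actQ_inj (W : AddSubgroup V) (hW : Iv (⊤ : Subgroup G) W)
    (a b : G ⧸ (ph W hW).ker)
    (h : ∀ x : V ⧸ W, (actQ W hW).smul a x = (actQ W hW).smul b x) : a = b := by
  apply kl_inj W hW
  exact AddMonoidHom.ext fun x => h x

end alg

/-! ### definability -/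

section def1

variable {M : Type} {U : RU M}

private theorem dab_quot {V : Type} [AddCommGroup V] [Cod M V] [DAb U V] (W : AddSubgroup V)
    [Cod M (V ⧸ W)] [Ful U (V ⧸ W)] (hmk : DFn U (fun v : V => (v : V ⧸ W))) :
    DAb U (V ⧸ W) := by
  refine ⟨?_⟩
  have h : U.D {z : ((V ⧸ W) × (V ⧸ W)) × (V ⧸ W) | ∃ v w : V, (v : V ⧸ W) = z.1.1 ∧
      (w : V ⧸ W) = z.1.2 ∧ ((v + w : V) : V ⧸ W) = z.2} := by
    refine D_exists (p := fun (z : ((V ⧸ W) × (V ⧸ W)) × (V ⧸ W)) (v : V) => ∃ w : V,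
      (v : V ⧸ W) = z.1.1 ∧ (w : V ⧸ W) = z.1.2 ∧ ((v + w : V) : V ⧸ W) = z.2) ?_
    refine D_exists (p := fun (y : (((V ⧸ W) × (V ⧸ W)) × (V ⧸ W)) × V) (w : V) =>
      (y.2 : V ⧸ W) = y.1.1.1 ∧ (w : V ⧸ W) = y.1.1.2 ∧ ((y.2 + w : V) : V ⧸ W) = y.1.2) ?_
    have e1 : DFn U (fun x : ((((V ⧸ W) × (V ⧸ W)) × (V ⧸ W)) × V) × V => x.1.2) :=
      DFn_comp DFn_snd DFn_fst
    have e2 : DFn U (fun x : ((((V ⧸ W) × (V ⧸ W)) × (V ⧸ W)) × V) × V => x.2) := DFn_snd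
    have e3 : DFn U (fun x : ((((V ⧸ W) × (V ⧸ W)) × (V ⧸ W)) × V) × V => x.1.1) :=
      DFn_comp DFn_fst DFn_fst
    have e4 : DFn U (fun x : ((((V ⧸ W) × (V ⧸ W)) × (V ⧸ W)) × V) × V => x.1.1.2) :=
      DFn_comp DFn_snd e3
    have e5 : DFn U (fun x : ((((V ⧸ W) × (V ⧸ W)) × (V ⧸ W)) × V) × V => x.1.1.1) :=
      DFn_comp DFn_fst e3
    refine D_and (D_eqf (DFn_comp hmk e1) (DFn_comp DFn_fst e5))
      (D_and (D_eqf (DFn_comp hmk e2) (DFn_comp DFn_snd e5))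
        (D_eqf (DFn_comp hmk (DFn_aadd e1 e2)) e4))
  have e : {p : ((V ⧸ W) × (V ⧸ W)) × (V ⧸ W) | p.2 = p.1.1 + p.1.2} =
      {z : ((V ⧸ W) × (V ⧸ W)) × (V ⧸ W) | ∃ v w : V, (v : V ⧸ W) = z.1.1 ∧
      (w : V ⧸ W) = z.1.2 ∧ ((v + w : V) : V ⧸ W) = z.2} := by
    ext z
    constructor
    · intro hz
      obtain ⟨v, hv⟩ := QuotientAddGroup.mk_surjective z.1.1
      obtain ⟨w, hw⟩ := QuotientAddGroup.mk_surjective z.1.2
      refine ⟨v, w, hv, hw, ?_⟩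
      have hz' : z.2 = z.1.1 + z.1.2 := hz
      rw [hz', ← hv, ← hw]
      rfl
    · rintro ⟨v, w, hv, hw, hz⟩
      change z.2 = z.1.1 + z.1.2
      rw [← hv, ← hw, ← hz]
      rfl
  unfold DFn
  rw [e]
  exact h

private theorem da_quot {G V : Type} [Group G] [AddCommGroup V] [DistribMulAction G V]
    [Cod M G] [Cod M V] [DG U G] [DAb U V] [DA U G V] (K : Subgroup G) [K.Normal]
    (W : AddSubgroup V) [MulAction (G ⧸ K) (V ⧸ W)]
    (hact : ∀ (g : G) (v : V), (g : G ⧸ K) • (v : V ⧸ W) = ((g • v : V) : V ⧸ W))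
    [Cod M (G ⧸ K)] [Cod M (V ⧸ W)] [Ful U (G ⧸ K)] [Ful U (V ⧸ W)]
    (hmkG : DFn U (fun g : G => (g : G ⧸ K))) (hmkV : DFn U (fun v : V => (v : V ⧸ W))) :
    DA U (G ⧸ K) (V ⧸ W) := by
  refine ⟨?_⟩
  have h : U.D {z : ((G ⧸ K) × (V ⧸ W)) × (V ⧸ W) | ∃ (g : G) (v : V), (g : G ⧸ K) = z.1.1 ∧
      (v : V ⧸ W) = z.1.2 ∧ ((g • v : V) : V ⧸ W) = z.2} := by
    refine D_exists (p := fun (z : ((G ⧸ K) × (V ⧸ W)) × (V ⧸ W)) (g : G) => ∃ v : V,
      (g : G ⧸ K) = z.1.1 ∧ (v : V ⧸ W) = z.1.2 ∧ ((g • v : V) : V ⧸ W) = z.2) ?_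
    refine D_exists (p := fun (y : (((G ⧸ K) × (V ⧸ W)) × (V ⧸ W)) × G) (v : V) =>
      (y.2 : G ⧸ K) = y.1.1.1 ∧ (v : V ⧸ W) = y.1.1.2 ∧ ((y.2 • v : V) : V ⧸ W) = y.1.2) ?_
    have e1 : DFn U (fun x : ((((G ⧸ K) × (V ⧸ W)) × (V ⧸ W)) × G) × V => x.1.2) :=
      DFn_comp DFn_snd DFn_fst
    have e2 : DFn U (fun x : ((((G ⧸ K) × (V ⧸ W)) × (V ⧸ W)) × G) × V => x.2) := DFn_snd
    have e3 : DFn U (fun x : ((((G ⧸ K) × (V ⧸ W)) × (V ⧸ W)) × G) × V => x.1.1) :=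
      DFn_comp DFn_fst DFn_fst
    have e4 : DFn U (fun x : ((((G ⧸ K) × (V ⧸ W)) × (V ⧸ W)) × G) × V => x.1.1.2) :=
      DFn_comp DFn_snd e3
    have e5 : DFn U (fun x : ((((G ⧸ K) × (V ⧸ W)) × (V ⧸ W)) × G) × V => x.1.1.1) :=
      DFn_comp DFn_fst e3
    refine D_and (D_eqf (DFn_comp hmkG e1) (DFn_comp DFn_fst e5))
      (D_and (D_eqf (DFn_comp hmkV e2) (DFn_comp DFn_snd e5))
        (D_eqf (DFn_comp hmkV (DFn_act e1 e2)) e4))
  have e : {p : ((G ⧸ K) × (V ⧸ W)) × (V ⧸ W) | p.2 = p.1.1 • p.1.2} =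
      {z : ((G ⧸ K) × (V ⧸ W)) × (V ⧸ W) | ∃ (g : G) (v : V), (g : G ⧸ K) = z.1.1 ∧
      (v : V ⧸ W) = z.1.2 ∧ ((g • v : V) : V ⧸ W) = z.2} := by
    ext z
    constructor
    · intro hz
      obtain ⟨g, hg⟩ := QuotientGroup.mk_surjective z.1.1
      obtain ⟨v, hv⟩ := QuotientAddGroup.mk_surjective z.1.2
      refine ⟨g, v, hg, hv, ?_⟩
      have hz' : z.2 = z.1.1 • z.1.2 := hz
      rw [hz', ← hg, ← hv]
      exact (hact g v).symm
    · rintro ⟨g, v, hg, hv, hz⟩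
      change z.2 = z.1.1 • z.1.2
      rw [← hg, ← hv, ← hz]
      exact (hact g v).symm
  unfold DFn
  rw [e]
  exact h

private theorem D_ker {G V : Type} [Group G] [AddCommGroup V] [DistribMulAction G V]
    [Cod M G] [Cod M V] [DG U G] [DAb U V] [DA U G V] (W : AddSubgroup V)
    (hD : U.D (W : Set V)) (hW : Iv (⊤ : Subgroup G) W) :
    U.D (((ph W hW).ker : Subgroup G) : Set G) := by
  have h : U.D {g : G | ∀ v : V, g • v - v ∈ W} := by
    refine D_forall (p := fun (g : G) (v : V) => g • v - v ∈ W) ?_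
    exact D_subst (p := fun v : V => v ∈ W) hD (DFn_asub (DFn_act DFn_fst DFn_snd) DFn_snd)
  have e : (((ph W hW).ker : Subgroup G) : Set G) = {g : G | ∀ v : V, g • v - v ∈ W} := by
    ext g
    exact mem_ker W hW g
  rw [e]
  exact h

private theorem D_rel {V : Type} [AddCommGroup V] [Cod M V] [DAb U V] (W : AddSubgroup V)
    (hD : U.D (W : Set V)) :
    U.D {z : V × V | (QuotientAddGroup.leftRel W).r z.1 z.2} := by
  have h : U.D {z : V × V | z.2 - z.1 ∈ W} :=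
    D_subst (p := fun v : V => v ∈ W) hD (DFn_asub DFn_snd DFn_fst)
  have e : {z : V × V | (QuotientAddGroup.leftRel W).r z.1 z.2} =
      {z : V × V | z.2 - z.1 ∈ W} := by
    ext z
    have h1 : (QuotientAddGroup.leftRel W).r z.1 z.2 ↔ -z.1 + z.2 ∈ W :=
      QuotientAddGroup.leftRel_apply
    have h2 : -z.1 + z.2 = z.2 - z.1 := by abel
    rw [h2] at h1
    exact h1
  rw [e]
  exact h

end def1

theorem pf_QMD (hQTY : T_QTY) (hQGP : T_QGP) (hEXA : T_EXA) (hEXB : T_EXB) (hEXC : T_EXC) :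
    T_QMD := by
  intro C hC M U hU G V _ _ _ _ _ _ _ _ W hD hW
  obtain ⟨M1, U1, e1, h1, c1, hC1, hF1, hmk1⟩ :=
    hQTY C hC U hU (QuotientAddGroup.leftRel W) (D_rel W hD)
  obtain ⟨hB1, hB2, hB3, hB4, hB5⟩ := hEXB U U1 e1 h1
  let cG1 : Cod M1 G := codE h1.inj
  let cV1 : Cod M1 V := codE h1.inj
  let cW1 : Cod M1 (V ⧸ W) := c1
  have : DG U1 G := hB3
  have : DAb U1 V := hB4
  have : DA U1 G V := hB5
  have : Ful U1 (V ⧸ W) := hF1
  have : DAb U1 (V ⧸ W) := dab_quot W hmk1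
  have hK1 : U1.D (((ph W hW).ker : Subgroup G) : Set G) :=
    ((hEXA U U1 e1 h1 (α := G) (β := G) (γ := G)).1.D _).2 (D_ker W hD hW)
  obtain ⟨M2, U2, e2, h2, cK, hC2, hG2, hmk2⟩ := hQGP C hC U1 hC1 (ph W hW).ker hK1
  obtain ⟨hE1, hE2, hE3, hE4, hE5⟩ := hEXB U1 U2 e2 h2
  let cG2 : Cod M2 G := codE h2.inj
  let cV2 : Cod M2 V := codE h2.inj
  let cW2 : Cod M2 (V ⧸ W) := codE h2.inj
  have : DG U2 G := hE3
  have : DAb U2 V := hE4
  have : DA U2 G V := hE5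
  have hab : DAb U2 (V ⧸ W) := hE4
  have := hG2
  let act : DistribMulAction (G ⧸ (ph W hW).ker) (V ⧸ W) := actQ W hW
  have hact : ∀ (g : G) (v : V), (g : G ⧸ (ph W hW).ker) • (v : V ⧸ W) =
      ((g • v : V) : V ⧸ W) := fun g v => rfl
  have hmkV : DFn U2 (fun v : V => (v : V ⧸ W)) := hE2 _ hmk1
  have hda : DA U2 (G ⧸ (ph W hW).ker) (V ⧸ W) := da_quot _ W hact hmk2 hmkV
  refine ⟨M2, U2, e2 ∘ e1, hEXC U U1 U2 e1 e2 h1 h2, ?_⟩
  refine ⟨G ⧸ (ph W hW).ker, V ⧸ W, ?_⟩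
  refine ⟨QuotientGroup.Quotient.group _, ?_⟩
  refine ⟨QuotientAddGroup.Quotient.addCommGroup _, ?_⟩
  refine ⟨act, ?_⟩
  refine ⟨cK, ?_⟩
  refine ⟨cW2, ?_⟩
  refine ⟨QuotientGroup.mk' (ph W hW).ker, ?_⟩
  refine ⟨QuotientAddGroup.mk' W, ?_⟩
  refine ⟨?_, ?_, ?_, ?_, ?_, ?_, ?_⟩
  · exact hC2
  · exact hG2
  · exact hab
  · exact hda
  · refine ⟨?_⟩
    intro a b hab
    exact actQ_inj W hW a b hab
  · refine ⟨?_, ?_, ?_, ?_, ?_⟩
    · exact QuotientGroup.mk'_surjective _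
    · exact QuotientAddGroup.mk'_surjective W
    · exact hmk2
    · exact hmkV
    · exact fun g v => rfl
  · intro v
    exact QuotientAddGroup.eq_zero_iff v

end Pool.Agent.H1.KGR
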